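import Pool.Agent.H77.PM.Targets

/-!
# Hereditary classes of Polish metric structures, row INJ: from enumerations with repetitions to
injective enumerations
-/

set_option autoImplicit false

open Set Filter Topology

namespace Pool.Agent.H11.PM

open Pool.Agent.H77.PM

section nth

variable {M : Type}

/-- the value at `j` is new -/
def Nw (s : ℕ → M) (j : ℕ) : Prop := ∀ j' < j, s j' ≠ s j

theorem exists_nw (s : ℕ → M) (j : ℕ) : ∃ i, Nw s i ∧ s i = s j := by
  classical
  have h : ∃ i, s i = s j := ⟨j, rfl⟩
  refine ⟨Nat.find h, ?_, Nat.find_spec h⟩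
  intro j' hj' h2
  exact Nat.find_min h hj' (h2.trans (Nat.find_spec h))

theorem nw_infinite {s : ℕ → M} (hs : (range s).Infinite) : (Set.ofPred (Nw s)).Infinite := by
  intro hf
  apply hs
  refine (hf.image s).subset ?_
  rintro x ⟨j, rfl⟩
  obtain ⟨i, hi, h⟩ := exists_nw s j
  exact ⟨i, hi, h⟩

end nth

/-- from enumerations with repetitions to injective enumerations -/
theorem pf_INJ : T_INJ := by
  classical
  intro M m p r hp hinf hm hLC
  have hP : ∀ u, (Set.ofPred (Nw (r u))).Infinite := fun u => nw_infinite (hinf u)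
  refine ⟨fun u i => r u (Nat.nth (Nw (r u)) i), ?_, ?_, ?_, ?_⟩
  · intro u i i' h
    by_contra hne
    have key : ∀ a b : ℕ, a < b →
        r u (Nat.nth (Nw (r u)) a) ≠ r u (Nat.nth (Nw (r u)) b) := by
      intro a b hab
      exact Nat.nth_mem_of_infinite (hP u) b _ (Nat.nth_strictMono (hP u) hab)
    rcases lt_or_gt_of_ne hne with h1 | h1
    · exact key _ _ h1 h
    · exact key _ _ h1 h.symm
  · intro u
    apply Set.Subset.antisymm
    · rintro x ⟨i, rfl⟩
      exact ⟨_, rfl⟩
    · rintro x ⟨j, rfl⟩
      obtain ⟨i, hi, h⟩ := exists_nw (r u) j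
      refine ⟨Nat.count (Nw (r u)) i, ?_⟩
      simp only
      rw [Nat.nth_count hi, h]
  · intro u i hi
    have h1 : ∀ j < m, Nw (r u) j := by
      intro j hj j' hj' h2
      rw [hm u j hj, hm u j' (hj'.trans hj)] at h2
      exact absurd (hp h2) hj'.ne
    have h2 : Nat.count (Nw (r u)) i = i :=
      Nat.count_iff_forall.2 fun j hj => h1 j (hj.trans hi)
    have h3 : Nat.nth (Nw (r u)) i = i := by
      have h4 := Nat.nth_count (h1 i hi)
      rwa [h2] at h4
    simp only
    rw [h3]
    exact hm u i hi
  · intro i u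
    have hJ := Nat.nth_mem_of_infinite (hP u) i
    have hc : Nat.count (Nw (r u)) (Nat.nth (Nw (r u)) i) = i :=
      Nat.count_nth_of_infinite (hP u) i
    obtain ⟨J, hJe⟩ : ∃ J, J = Nat.nth (Nw (r u)) i := ⟨_, rfl⟩
    rw [← hJe] at hJ hc
    choose N hN using fun j => hLC j u
    refine ⟨(Finset.range (J + 1)).sup N, fun v hv => ?_⟩
    have h1 : ∀ j ≤ J, r v j = r u j := by
      intro j hj
      apply hN j v
      intro l hl
      apply hv l
      exact lt_of_lt_of_le hl (Finset.le_sup (f := N) (Finset.mem_range.2 (Nat.lt_succ_of_le hj)))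
    have h2 : ∀ j ≤ J, (Nw (r v) j ↔ Nw (r u) j) := by
      intro j hj
      unfold Nw
      constructor
      · intro h j' hj'
        rw [← h1 j hj, ← h1 j' (hj'.le.trans hj)]
        exact h j' hj'
      · intro h j' hj'
        rw [h1 j hj, h1 j' (hj'.le.trans hj)]
        exact h j' hj'
    have h3 : Nat.count (Nw (r v)) J = i := by
      rw [← hc, Nat.count_eq_card_filter_range, Nat.count_eq_card_filter_range]
      congr 1
      apply Finset.filter_congr
      intro j hj
      exact h2 j (Finset.mem_range.1 hj).le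
    have h4 := Nat.nth_count ((h2 J le_rfl).2 hJ)
    rw [h3] at h4
    simp only
    rw [h4, ← hJe]
    exact h1 J le_rfl

end Pool.Agent.H11.PM
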